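import Pool.Agent.Run7.h507.KR.Defs

/-!
Project KR of helper507 (MP_5cb574_an), piece DUAL (second copy), by helper774.
-/

set_option autoImplicit false

open MeasureTheory Metric Set Filter Topology

namespace Run7.h774.KR

open Pool.Agent.Run7.h507.KR

theorem t_DUAL : S_DUAL := by
  intro K s t u v hu hv h y
  obtain ⟨z, hz⟩ : ∃ z : ℤ → ℂ, ∀ l, z l = ∑ k ∈ K, (starRingEnd ℂ) (t k l) * y k :=
    ⟨_, fun l => rfl⟩
  obtain ⟨x, hx⟩ : ∃ x : ℤ → ℂ, ∀ l, x l = (((v l)⁻¹ : ℝ) : ℂ) * z l := ⟨_, fun l => rfl⟩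
  obtain ⟨W, hW⟩ : ∃ W : ℤ → ℂ, ∀ k, W k = ∑ l ∈ s, t k l * x l := ⟨_, fun k => rfl⟩
  obtain ⟨S, hS⟩ : ∃ S : ℝ, S = ∑ l ∈ s, (v l)⁻¹ * ‖z l‖ ^ 2 := ⟨_, rfl⟩
  have hS0 : 0 ≤ S := by
    rw [hS]
    exact Finset.sum_nonneg fun l _ => mul_nonneg (inv_pos.2 (hv l)).le (sq_nonneg _)
  have h1 : (S : ℂ) = ∑ k ∈ K, (starRingEnd ℂ) (W k) * y k := by
    have e1 : (S : ℂ) = ∑ l ∈ s, (starRingEnd ℂ) (x l) * z l := by
      rw [hS]
      push_cast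
      refine Finset.sum_congr rfl fun l _ => ?_
      rw [hx, map_mul, Complex.conj_ofReal, mul_assoc, Complex.conj_mul']
      push_cast
      rfl
    have e2 : ∑ l ∈ s, (starRingEnd ℂ) (x l) * z l =
        ∑ l ∈ s, ∑ k ∈ K, (starRingEnd ℂ) (x l) * ((starRingEnd ℂ) (t k l) * y k) := by
      refine Finset.sum_congr rfl fun l _ => ?_
      rw [hz, Finset.mul_sum]
    rw [e1, e2, Finset.sum_comm]
    refine Finset.sum_congr rfl fun k _ => ?_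
    rw [hW, map_sum, Finset.sum_mul]
    refine Finset.sum_congr rfl fun l _ => ?_
    rw [map_mul]
    ring
  have h2 : S ≤ ∑ k ∈ K, ‖W k‖ * ‖y k‖ := by
    have e1 : ‖(S : ℂ)‖ ≤ ∑ k ∈ K, ‖(starRingEnd ℂ) (W k) * y k‖ := by
      rw [h1]
      exact norm_sum_le _ _
    rw [Complex.norm_real, Real.norm_of_nonneg hS0] at e1
    refine e1.trans (le_of_eq (Finset.sum_congr rfl fun k _ => ?_))
    rw [norm_mul, RCLike.norm_conj]
  have h3 : (∑ k ∈ K, ‖W k‖ * ‖y k‖) ^ 2 ≤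
      (∑ k ∈ K, u k * ‖W k‖ ^ 2) * ∑ k ∈ K, (u k)⁻¹ * ‖y k‖ ^ 2 := by
    refine Finset.sum_sq_le_sum_mul_sum_of_sq_eq_mul K (fun k _ => ?_) (fun k _ => ?_)
      (fun k _ => ?_)
    · exact mul_nonneg (hu k).le (sq_nonneg _)
    · exact mul_nonneg (inv_pos.2 (hu k)).le (sq_nonneg _)
    · have := (hu k).ne'
      field_simp
  have h4 : ∑ k ∈ K, u k * ‖W k‖ ^ 2 ≤ S := by
    have e1 := h x
    simp only [← hW] at e1
    refine e1.trans (le_of_eq ?_)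
    rw [hS]
    refine Finset.sum_congr rfl fun l _ => ?_
    rw [hx, norm_mul, Complex.norm_real, Real.norm_of_nonneg (inv_pos.2 (hv l)).le]
    have := (hv l).ne'
    field_simp
  have hY0 : 0 ≤ ∑ k ∈ K, (u k)⁻¹ * ‖y k‖ ^ 2 :=
    Finset.sum_nonneg fun k _ => mul_nonneg (inv_pos.2 (hu k)).le (sq_nonneg _)
  have h5 : S ^ 2 ≤ S * ∑ k ∈ K, (u k)⁻¹ * ‖y k‖ ^ 2 := by
    have e1 : S ^ 2 ≤ (∑ k ∈ K, ‖W k‖ * ‖y k‖) ^ 2 := pow_le_pow_left₀ hS0 h2 2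
    exact e1.trans (h3.trans (mul_le_mul_of_nonneg_right h4 hY0))
  simp only [← hz]
  rw [← hS]
  rcases hS0.eq_or_lt with h6 | h6
  · rw [← h6]
    exact hY0
  · rw [pow_two] at h5
    exact le_of_mul_le_mul_left h5 h6

end Run7.h774.KR
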