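import Pool.Agent.Run7.h507.KR.Defs

/-!
Project KR of helper507 (MP_5cb574_an), piece PP, by helper774.
-/

set_option autoImplicit false

open MeasureTheory Metric Set Filter Topology

namespace Run7.h774.KR

open Pool.Agent.Run7.h507.KR

theorem q_pow_le (m : ℕ) : (17 / 50 : ℝ) ^ (m + 1) ≤ 17 / 50 := by
  have h1 : (17 / 50 : ℝ) ^ (m + 1) ≤ (17 / 50 : ℝ) ^ 1 :=
    pow_le_pow_of_le_one (by norm_num) (by norm_num) (by omega)
  rwa [pow_one] at h1

theorem q_pow_le2 (m : ℕ) : (17 / 50 : ℝ) ^ (m + 2) ≤ (17 / 50) ^ 2 :=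
  pow_le_pow_of_le_one (by norm_num) (by norm_num) (by omega)

theorem P_succ (m : ℕ) :
    P (m + 1) = P m * ((8 / 25 + (17 / 50) ^ (m + 1)) / (1 - (17 / 50) ^ (m + 1))) := rfl

theorem fac_pos (m : ℕ) :
    (0 : ℝ) < (8 / 25 + (17 / 50) ^ (m + 1)) / (1 - (17 / 50) ^ (m + 1)) := by
  have h1 := q_pow_le m
  have h2 : (0 : ℝ) < (17 / 50) ^ (m + 1) := by positivity
  exact div_pos (by linarith) (by linarith)

theorem fac_le_one (m : ℕ) :
    (8 / 25 + (17 / 50) ^ (m + 1)) / (1 - (17 / 50) ^ (m + 1)) ≤ (1 : ℝ) := by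
  have h1 := q_pow_le m
  rw [div_le_one (by linarith)]
  linarith

theorem fac_le_half (m : ℕ) :
    (8 / 25 + (17 / 50) ^ (m + 2)) / (1 - (17 / 50) ^ (m + 2)) ≤ (1 / 2 : ℝ) := by
  have h1 := q_pow_le2 m
  have h2 : ((17 : ℝ) / 50) ^ 2 = 289 / 2500 := by norm_num
  rw [h2] at h1
  rw [div_le_iff₀ (by linarith)]
  linarith

theorem P_pos (m : ℕ) : 0 < P m := by
  induction m with
  | zero => exact zero_lt_one
  | succ m ih => rw [P_succ]; exact mul_pos ih (fac_pos m)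

theorem P_one : P 1 = 1 := by
  rw [P_succ]
  show (1 : ℝ) * _ = 1
  norm_num

theorem P_half (m : ℕ) : P (m + 1) ≤ (1 / 2) ^ m := by
  induction m with
  | zero => rw [zero_add, P_one, pow_zero]
  | succ m ih =>
    rw [P_succ, pow_succ]
    have h0 : (0 : ℝ) ≤ (1 / 2) ^ m := pow_nonneg (by norm_num) m
    exact mul_le_mul ih (fac_le_half m) (fac_pos (m + 1)).le h0

theorem t_PP : S_PP := by
  refine ⟨P_pos, antitone_nat_of_succ_le fun m => ?_, ?_, P_one⟩
  · rw [P_succ]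
    exact mul_le_of_le_one_right (P_pos m).le (fac_le_one m)
  · refine (summable_nat_add_iff 1).1 ?_
    exact Summable.of_nonneg_of_le (fun m => (P_pos _).le) P_half
      (summable_geometric_of_lt_one (by norm_num) (by norm_num))

end Run7.h774.KR
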