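import Pool.Agent.Run7.h507.KR.Defs

/-!
Project KR of helper507 (MP_5cb574_an), piece WA, by helper774.
-/

set_option autoImplicit false

open MeasureTheory Metric Set Filter Topology

namespace Run7.h774.KR

open Pool.Agent.Run7.h507.KR

theorem t_WA : S_DUAL → S_HB → S_WA := by
  intro hD hHB r ρ R h hr hrρ hρR hR hq hh hb w β a hw hβ ha hsum K s x
  have hq0 : (0 : ℝ) < 17 / 50 := by norm_num
  have hpos : ∀ (j : ℕ) (k : ℤ), 0 < 1 + β j * (17 / 50 : ℝ) ^ k := by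
    intro j k
    have h1 : 0 ≤ β j * (17 / 50 : ℝ) ^ k := mul_nonneg (hβ j) (zpow_pos hq0 k).le
    linarith
  -- the dual inequalities for each `β j`
  have hdual : ∀ (j : ℕ) (y : ℤ → ℂ),
      ∑ l ∈ s, (1 + β j * (17 / 50 : ℝ) ^ l)⁻¹ *
        ‖∑ k ∈ K, (starRingEnd ℂ) (co h R (k - l)) * y k‖ ^ 2 ≤
      ∑ k ∈ K, (1 + β j * (17 / 50 : ℝ) ^ k)⁻¹ * ‖y k‖ ^ 2 := by
    intro j y
    refine hD K s (fun k l => co h R (k - l)) (fun k => 1 + β j * (17 / 50 : ℝ) ^ k)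
      (fun l => 1 + β j * (17 / 50 : ℝ) ^ l) (hpos j) (hpos j) ?_ y
    intro x
    have h1 := hHB r ρ R (β j) h hr hrρ hρR hR (hβ j) hh hb K s x
    rw [hq] at h1
    exact h1
  have hmix : ∀ y : ℤ → ℂ,
      ∑ l ∈ s, a l * ‖∑ k ∈ K, (starRingEnd ℂ) (co h R (k - l)) * y k‖ ^ 2 ≤
      ∑ k ∈ K, a k * ‖y k‖ ^ 2 := by
    intro y
    have h1 : HasSum (fun j => ∑ l ∈ s, w j * (1 + β j * (17 / 50 : ℝ) ^ l)⁻¹ *
        ‖∑ k ∈ K, (starRingEnd ℂ) (co h R (k - l)) * y k‖ ^ 2)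
        (∑ l ∈ s, a l * ‖∑ k ∈ K, (starRingEnd ℂ) (co h R (k - l)) * y k‖ ^ 2) :=
      hasSum_sum fun l _ => (hsum l).mul_right _
    have h2 : HasSum (fun j => ∑ k ∈ K, w j * (1 + β j * (17 / 50 : ℝ) ^ k)⁻¹ * ‖y k‖ ^ 2)
        (∑ k ∈ K, a k * ‖y k‖ ^ 2) := hasSum_sum fun k _ => (hsum k).mul_right _
    refine hasSum_le (fun j => ?_) h1 h2
    have h3 := mul_le_mul_of_nonneg_left (hdual j y) (hw j)
    rw [Finset.mul_sum, Finset.mul_sum] at h3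
    simp only [mul_assoc]
    exact h3
  have h4 := hD s K (fun l k => (starRingEnd ℂ) (co h R (k - l))) a a ha ha hmix x
  simp only [Complex.conj_conj] at h4
  exact h4

end Run7.h774.KR
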